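import Pool.Agent.MT100.Stmts

/-! MT100, module SYM: the symmetric square of a matrix. -/

set_option autoImplicit false

namespace Pool.Agent.MT100.H67

open Matrix Pool.Agent.MT100

/-- a sum over all pairs as a sum over the pairs `i ≤ j` -/
theorem sum_si {r : ℕ} {R : Type} [CommRing R] (g : Fin r → Fin r → R) :
    ∑ a, ∑ b, g a b = ∑ α : SI r, (g α.1.1 α.1.2 + if α.1.1 < α.1.2 then g α.1.2 α.1.1 else 0) := by
  have h1 : ∑ α : SI r, (g α.1.1 α.1.2 + if α.1.1 < α.1.2 then g α.1.2 α.1.1 else 0) =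
      ∑ p : Fin r × Fin r, if p.1 ≤ p.2 then
        (g p.1 p.2 + if p.1 < p.2 then g p.2 p.1 else 0) else 0 := by
    rw [← Finset.sum_filter]
    exact (Finset.sum_subtype _ (by intro p; simp)
      (fun p : Fin r × Fin r => g p.1 p.2 + if p.1 < p.2 then g p.2 p.1 else 0)).symm
  rw [h1, Fintype.sum_prod_type]
  have h2 : ∀ a b : Fin r, (if a ≤ b then (g a b + if a < b then g b a else 0) else 0) =
      (if a ≤ b then g a b else 0) + (if a < b then g b a else 0) := by
    intro a b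
    by_cases h : a ≤ b
    · simp [h]
    · have h' : ¬ a < b := fun h3 => h h3.le
      simp [h, h']
  simp only [h2, Finset.sum_add_distrib]
  rw [Finset.sum_comm (f := fun a b => if a < b then g b a else 0), ← Finset.sum_add_distrib]
  apply Finset.sum_congr rfl
  intro a _
  rw [← Finset.sum_add_distrib]
  apply Finset.sum_congr rfl
  intro b _
  rcases le_or_gt a b with h | h
  · simp [h, not_lt.2 h]
  · simp [h, not_le.2 h]

theorem sy_mul {r : ℕ} {R : Type} [CommRing R] (M M' : Matrix (Fin r) (Fin r) R) :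
    sy (M * M') = sy M * sy M' := by
  ext β γ
  rw [Matrix.mul_apply]
  have key : ∀ c d : Fin r, (M * M') β.1.1 c * (M * M') β.1.2 d =
      ∑ α : SI r, (M β.1.1 α.1.1 * M' α.1.1 c * (M β.1.2 α.1.2 * M' α.1.2 d) +
        if α.1.1 < α.1.2 then M β.1.1 α.1.2 * M' α.1.2 c * (M β.1.2 α.1.1 * M' α.1.1 d) else 0) := by
    intro c d
    rw [← sum_si (fun a b => M β.1.1 a * M' a c * (M β.1.2 b * M' b d)), Matrix.mul_apply,
      Matrix.mul_apply, Finset.sum_mul_sum]
  show (M * M') β.1.1 γ.1.1 * (M * M') β.1.2 γ.1.2 +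
    (if γ.1.1 < γ.1.2 then (M * M') β.1.1 γ.1.2 * (M * M') β.1.2 γ.1.1 else 0) = _
  rw [key, key]
  by_cases h : γ.1.1 < γ.1.2
  · rw [if_pos h, ← Finset.sum_add_distrib]
    apply Finset.sum_congr rfl
    intro α _
    simp only [sy, if_pos h]
    split_ifs <;> ring
  · rw [if_neg h, add_zero]
    apply Finset.sum_congr rfl
    intro α _
    have h' : γ.1.2 = γ.1.1 := le_antisymm (not_lt.1 h) γ.2
    simp only [sy, h', lt_irrefl, if_false]
    split_ifs <;> ring

theorem sy_one {r : ℕ} {R : Type} [CommRing R] : sy (1 : Matrix (Fin r) (Fin r) R) = 1 := by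
  ext ⟨⟨b1, b2⟩, hb⟩ ⟨⟨a1, a2⟩, ha⟩
  simp only at hb ha
  simp only [sy, Matrix.one_apply, Subtype.mk.injEq, Prod.mk.injEq]
  by_cases h : b1 = a1 ∧ b2 = a2
  · obtain ⟨rfl, rfl⟩ := h
    by_cases h1 : b1 < b2
    · simp [h1.ne]
    · simp [h1]
  · have h2 : ¬ (a1 < a2 ∧ b1 = a2 ∧ b2 = a1) := by
      rintro ⟨h3, rfl, rfl⟩
      exact absurd hb (not_le.2 h3)
    rw [if_neg h]
    have h3 : ((if b1 = a1 then 1 else 0) * if b2 = a2 then 1 else 0 : R) = 0 := by
      by_cases h4 : b1 = a1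
      · have h5 : b2 ≠ a2 := fun h5 => h ⟨h4, h5⟩
        simp [h5]
      · simp [h4]
    have h4 : (if a1 < a2 then (if b1 = a2 then 1 else 0) * (if b2 = a1 then 1 else 0) else 0 : R)
        = 0 := by
      by_cases h5 : a1 < a2
      · rw [if_pos h5]
        by_cases h6 : b1 = a2
        · have h7 : b2 ≠ a1 := fun h7 => h2 ⟨h5, h6, h7⟩
          simp [h7]
        · simp [h6]
      · rw [if_neg h5]
    rw [h3, h4, add_zero]

theorem sy_map {r : ℕ} {R R' : Type} [CommRing R] [CommRing R'] (f : R →+* R')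
    (M : Matrix (Fin r) (Fin r) R) : sy (M.map f) = (sy M).map f := by
  ext β α
  simp only [sy, Matrix.map_apply, map_add, map_mul]
  split_ifs <;> simp

theorem sy_quad {r : ℕ} {R : Type} [CommRing R] (M : Matrix (Fin r) (Fin r) R) (F : Fin r → R)
    (β : SI r) :
    (M *ᵥ F) β.1.1 * (M *ᵥ F) β.1.2 = ∑ α : SI r, sy M β α * (F α.1.1 * F α.1.2) := by
  simp only [Matrix.mulVec, dotProduct]
  rw [Finset.sum_mul_sum, sum_si (fun a b => M β.1.1 a * F a * (M β.1.2 b * F b))]
  apply Finset.sum_congr rfl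
  intro α _
  simp only [sy]
  split_ifs <;> ring

/-- SYM -/
theorem sym : SymStmt :=
  ⟨fun _ _ _ M M' => sy_mul M M', fun _ _ _ => sy_one, fun _ _ _ _ _ f M => sy_map f M,
    fun _ _ _ M F β => sy_quad M F β⟩

end Pool.Agent.MT100.H67
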